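import Pool.Agent.H90.HW.Stmts
import Pool.Agent.H73.ZetaMain

/-!
From linear sections of Segre varieties to affine systems.
-/

namespace Pool.Agent.H90.HW

open Pool.Agent.H73.Zeta Finset
open scoped LinearAlgebra.Projectivization

section Affine

variable {C : Counts → Prop}

private theorem aff_sub (hC : Closed C) {N M : Counts} (hN : C N) (hM : C M) :
    C (fun p k => N p k - M p k) :=
  hC.congr (fun p k _ => by rw [sub_eq_add_neg]) (hC.add hN (hC.neg hM))

private theorem aff_shift (hC : Closed C) {N : Counts} (hN : C N) (j : ℕ) :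
    C (fun p k => ((p : ℤ) ^ k) ^ j * N p k) := by
  induction j with
  | zero => exact hC.congr (fun p k _ => by rw [pow_zero, one_mul]) hN
  | succ j ih => exact hC.congr (fun p k _ => by rw [pow_succ]; ring) (hC.shift ih)

private theorem aff_unshift (hC : Closed C) {N : Counts} (j : ℕ)
    (hN : C (fun p k => ((p : ℤ) ^ k) ^ j * N p k)) : C N := by
  induction j with
  | zero => exact hC.congr (fun p k _ => by rw [pow_zero, one_mul]) hN
  | succ j ih => exact ih (hC.unshift (hC.congr (fun p k _ => by rw [pow_succ]; ring) hN))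

private theorem aff_mul (hC : Closed C) {N : Counts} (hN : C N) :
    C (fun p k => ((p : ℤ) ^ k - 1) * N p k) :=
  hC.congr (fun p k _ => by ring) (aff_sub hC (hC.shift hN) hN)

private theorem aff_one {m : ℕ} (hC : Closed C) (hS : SegreIn C m) : C (fun _ _ => 1) := by
  refine hC.congr ?_ (hS 1 1 (fun _ _ _ => 0) (fun _ _ _ => Or.inr (Or.inl rfl)))
  intro p k _
  unfold segreCount
  have h1 : ∀ (K : Type) [Field K], Nat.card (ℙ K (Fin 1 → K)) = 1 := by
    intro K _
    rw [Nat.card_eq_one_iff_unique]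
    constructor
    · constructor
      intro x y
      induction x using Projectivization.ind with
      | h v hv =>
        induction y using Projectivization.ind with
        | h w hw =>
          rw [Projectivization.mk_eq_mk_iff']
          have hw0 : w 0 ≠ 0 := by
            intro h
            apply hw
            funext i
            rw [Subsingleton.elim i 0, h]
            rfl
          refine ⟨v 0 / w 0, ?_⟩
          funext i
          rw [Subsingleton.elim i 0]
          simp [hw0]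
    · exact ⟨Projectivization.mk K (fun _ => 1) (fun h => one_ne_zero (congrFun h 0))⟩
  have h2 : Nat.card {z : ℙ (FF p k) (Fin 1 → FF p k) × ℙ (FF p k) (Fin 1 → FF p k) //
      ∀ i : Fin (m + 1), ∑ j, ∑ l, (((0 : ℤ)) : FF p k) * z.1.rep j * z.2.rep l = 0} =
      Nat.card (ℙ (FF p k) (Fin 1 → FF p k) × ℙ (FF p k) (Fin 1 → FF p k)) := by
    refine Nat.card_congr (Equiv.subtypeUnivEquiv fun z i => ?_)
    simp
  rw [h2, Nat.card_prod, h1]
  rfl

/-- the numbers of solutions of the second flattening -/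
private noncomputable def aff_H {n a b : ℕ} (T : Fin n → Fin a → Fin b → ℤ) : Counts := fun p k =>
  cnt (fun z : (Fin n → FF p k) × (Fin b → FF p k) =>
    ∀ j, ∑ i, ∑ l, (T i j l : FF p k) * z.1 i * z.2 l = 0)

private theorem aff_H_mem (h2 : SCone) (h3 : SFlat) {m : ℕ} (hC : Closed C) (hS : SegreIn C m)
    {a b : ℕ} (T : Fin (m + 1) → Fin a → Fin b → ℤ)
    (hT : ∀ i j l, T i j l = -1 ∨ T i j l = 0 ∨ T i j l = 1) : C (aff_H T) := by
  have h1 := aff_one hC hS
  apply aff_unshift hC a
  have e1 := aff_mul hC (aff_mul hC (hS a b T hT))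
  have e2 := hC.add (hC.add e1 (aff_shift hC h1 a)) (aff_sub hC (aff_shift hC h1 b) h1)
  have e3 := aff_shift hC e2 (m + 1)
  refine hC.congr ?_ e3
  intro p k hk
  have h4 := h2 (FF p k) (m + 1) a b (fun i j l => (T i j l : FF p k))
  have h5 := h3 (FF p k) (m + 1) a b (fun i j l => (T i j l : FF p k))
  rw [card_FF p hk] at h4 h5
  unfold segreCount aff_H
  rw [← h5]
  rw [h4]
  ring

/-- the dehomogenised system -/
private noncomputable def aff_A {m a b : ℕ} (T : Fin (m + 1) → Fin a → Fin b → ℤ) : Counts :=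
  fun p k => cnt (fun z : (Fin m → FF p k) × (Fin b → FF p k) =>
    ∀ j, ∑ i, ∑ l, (T i j l : FF p k) * (Fin.cons 1 z.1 : Fin (m + 1) → FF p k) i * z.2 l = 0)

private noncomputable def aff_B {m a b : ℕ} (T : Fin (m + 1) → Fin a → Fin b → ℤ) : Counts :=
  fun p k => cnt (fun z : (Fin m → FF p k) × (Fin b → FF p k) =>
    ∀ j, ∑ i : Fin m, ∑ l, (T i.succ j l : FF p k) * z.1 i * z.2 l = 0)

private theorem aff_A_mem (h2 : SCone) (h3 : SFlat) (h4 : SDehom) {m : ℕ} (hC : Closed C)
    (hS : SegreIn C m) {a b : ℕ} (T : Fin (m + 1) → Fin a → Fin b → ℤ)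
    (hT : ∀ i j l, T i j l = -1 ∨ T i j l = 0 ∨ T i j l = 1) : C (aff_A T) := by
  -- the homogeneous part
  have hB : C (aff_B T) := by
    have h5 := aff_H_mem h2 h3 hC hS (fun i j l => if i = 0 then 0 else T i j l) (by
      intro i j l
      by_cases h : i = 0
      · rw [if_pos h]
        exact Or.inr (Or.inl rfl)
      · rw [if_neg h]
        exact hT i j l)
    apply hC.unshift
    refine hC.congr ?_ h5
    intro p k hk
    have h6 := h4 (FF p k) m a b
      (fun i j l => ((if i = 0 then 0 else T i j l : ℤ) : FF p k))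
    rw [card_FF p hk] at h6
    unfold aff_H aff_B
    rw [h6]
    have h7 : cnt (fun z : (Fin m → FF p k) × (Fin b → FF p k) =>
        ∀ j, ∑ i : Fin (m + 1), ∑ l, ((if i = 0 then 0 else T i j l : ℤ) : FF p k) *
          (Fin.cons 1 z.1 : Fin (m + 1) → FF p k) i * z.2 l = 0) =
        cnt (fun z : (Fin m → FF p k) × (Fin b → FF p k) =>
          ∀ j, ∑ i : Fin m, ∑ l, (T i.succ j l : FF p k) * z.1 i * z.2 l = 0) := by
      apply cnt_congr
      intro z
      refine forall_congr' fun j => ?_
      rw [Fin.sum_univ_succ]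
      simp [Fin.succ_ne_zero]
    have h8 : cnt (fun z : (Fin m → FF p k) × (Fin b → FF p k) =>
        ∀ j, ∑ i : Fin m, ∑ l, ((if i.succ = 0 then 0 else T i.succ j l : ℤ) : FF p k) *
          z.1 i * z.2 l = 0) =
        cnt (fun z : (Fin m → FF p k) × (Fin b → FF p k) =>
          ∀ j, ∑ i : Fin m, ∑ l, (T i.succ j l : FF p k) * z.1 i * z.2 l = 0) := by
      apply cnt_congr
      intro z
      simp [Fin.succ_ne_zero]
    rw [h7, h8]
    ring
  apply hC.div
  refine hC.congr ?_ (aff_sub hC (aff_H_mem h2 h3 hC hS T hT) hB)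
  intro p k hk
  have h6 := h4 (FF p k) m a b (fun i j l => (T i j l : FF p k))
  rw [card_FF p hk] at h6
  unfold aff_H aff_B aff_A
  rw [h6]
  ring

theorem affine (h1 : SGadget) (h2 : SCone) (h3 : SFlat) (h4 : SDehom) : SAffine := by
  intro C hC m hS F
  classical
  obtain ⟨a, b, T, hT, h5⟩ := h1 m F
  have hA := aff_A_mem h2 h3 h4 hC hS T hT
  apply hC.div
  refine hC.congr ?_ (aff_sub hC hA (aff_shift hC (aff_one hC hS) m))
  intro p k hk
  have := Fintype.ofFinite (FF p k)
  have h6 : aff_A T p k = ∑ x : Fin m → FF p k, cnt (fun z : Fin b → FF p k =>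
      ∀ j, ∑ i, ∑ l, (T i j l : FF p k) * (Fin.cons 1 x : Fin (m + 1) → FF p k) i * z l = 0) := by
    unfold aff_A
    rw [cnt_prod]
  have h7 : ∀ x : Fin m → FF p k, cnt (fun z : Fin b → FF p k =>
      ∀ j, ∑ i, ∑ l, (T i j l : FF p k) * (Fin.cons 1 x : Fin (m + 1) → FF p k) i * z l = 0) =
      ((p : ℤ) ^ k - 1) * (if (∀ f ∈ F, MvPolynomial.aeval x f = 0) then 1 else 0) + 1 := by
    intro x
    by_cases h : ∀ f ∈ F, MvPolynomial.aeval x f = 0
    · rw [if_pos h, (h5 (FF p k) x).1 h, card_FF p hk]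
      ring
    · rw [if_neg h, (h5 (FF p k) x).2 h]
      ring
  have h8 : (Fintype.card (Fin m → FF p k) : ℤ) = ((p : ℤ) ^ k) ^ m := by
    rw [← Nat.card_eq_fintype_card, card_fun, card_FF p hk, Fintype.card_fin]
  show aff_A T p k - ((p : ℤ) ^ k) ^ m * 1 = ((p : ℤ) ^ k - 1) *
    cnt (fun x : Fin m → FF p k => ∀ f ∈ F, MvPolynomial.aeval x f = 0)
  rw [h6, sum_congr rfl (fun x _ => h7 x), sum_add_distrib, ← mul_sum, cnt_sum]
  rw [sum_const, card_univ, nsmul_eq_mul, h8]
  ring

end Affine

end Pool.Agent.H90.HW
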