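import Pool.Agent.H90.HW.Stmts

/-!
The skew computation of polynomials by linear systems.
-/

namespace Pool.Agent.H90.HW

open Pool.Agent.H73.Zeta Finset

section Gadget

variable {m : ℕ}

/-- a linear system, with coefficients linear in `(1, x)`, whose solutions are
`z v = P v (x) * z none` -/
private def Gad (V : Type) [Fintype V] (P : V → MvPolynomial (Fin m) ℤ) : Prop :=
  ∃ (J : Type) (_ : Fintype J) (T : Fin (m + 1) → J → Option V → ℤ),
    (∀ i j l, T i j l = -1 ∨ T i j l = 0 ∨ T i j l = 1) ∧
    ∀ (K : Type) [Field K] (x : Fin m → K) (z : Option V → K),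
      (∀ j, ∑ i, ∑ l, (T i j l : K) * (Fin.cons 1 x : Fin (m + 1) → K) i * z l = 0) ↔
      ∀ v, z (some v) = MvPolynomial.aeval x (P v) * z none

private theorem gad_empty : Gad (m := m) Empty (fun v => v.elim) := by
  refine ⟨Empty, inferInstance, fun _ j _ => j.elim, fun _ j _ => j.elim, ?_⟩
  intro K _ x z
  exact ⟨fun _ v => v.elim, fun _ j => j.elim⟩

private theorem gad_union {V W : Type} [Fintype V] [Fintype W] {P : V → MvPolynomial (Fin m) ℤ}
    {Q : W → MvPolynomial (Fin m) ℤ} (hP : Gad V P) (hQ : Gad W Q) :
    Gad (V ⊕ W) (Sum.elim P Q) := by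
  obtain ⟨J, _, T, hT, h1⟩ := hP
  obtain ⟨J', _, T', hT', h2⟩ := hQ
  refine ⟨J ⊕ J', inferInstance, fun i j l => match j, l with
    | Sum.inl j, none => T i j none
    | Sum.inl j, some (Sum.inl v) => T i j (some v)
    | Sum.inl _, some (Sum.inr _) => 0
    | Sum.inr j, none => T' i j none
    | Sum.inr _, some (Sum.inl _) => 0
    | Sum.inr j, some (Sum.inr w) => T' i j (some w), ?_, ?_⟩
  · rintro i (j | j) (_ | (v | w))
    · exact hT i j none
    · exact hT i j (some v)
    · exact Or.inr (Or.inl rfl)
    · exact hT' i j none
    · exact Or.inr (Or.inl rfl)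
    · exact hT' i j (some w)
  · intro K _ x z
    have e1 := h1 K x (fun l => match l with
      | none => z none
      | some v => z (some (Sum.inl v)))
    have e2 := h2 K x (fun l => match l with
      | none => z none
      | some v => z (some (Sum.inr v)))
    simp only [Fintype.sum_option] at e1 e2
    rw [Sum.forall, Sum.forall]
    simp only [Fintype.sum_option, Fintype.sum_sum_type, Sum.elim_inl, Sum.elim_inr, Int.cast_zero,
      zero_mul, sum_const_zero, add_zero, zero_add]
    exact and_congr e1 e2

private theorem gad_ext {V : Type} [Fintype V] {P : V → MvPolynomial (Fin m) ℤ} (hP : Gad V P)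
    (c : Fin (m + 1) → Option V → ℤ) (hc : ∀ i l, c i l = -1 ∨ c i l = 0 ∨ c i l = 1)
    (G : MvPolynomial (Fin m) ℤ)
    (hG : ∀ (K : Type) [Field K] (x : Fin m → K), MvPolynomial.aeval x G = ∑ i,
      ((c i none : K) * (Fin.cons 1 x : Fin (m + 1) → K) i + ∑ v, (c i (some v) : K) *
        (Fin.cons 1 x : Fin (m + 1) → K) i * MvPolynomial.aeval x (P v))) :
    Gad (Option V) (fun v => v.elim G P) := by
  obtain ⟨J, _, T, hT, h1⟩ := hP
  refine ⟨Option J, inferInstance, fun i j l => match j, l with
    | none, none => - c i none
    | none, some none => if i = 0 then 1 else 0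
    | none, some (some v) => - c i (some v)
    | some j, none => T i j none
    | some _, some none => 0
    | some j, some (some v) => T i j (some v), ?_, ?_⟩
  · rintro i (_ | j) (_ | (_ | v))
    · rcases hc i none with h | h | h <;> simp [h]
    · by_cases h : i = 0 <;> simp [h]
    · rcases hc i (some v) with h | h | h <;> simp [h]
    · exact hT i j none
    · exact Or.inr (Or.inl rfl)
    · exact hT i j (some v)
  · intro K _ x z
    have e1 := h1 K x (fun l => match l with
      | none => z none
      | some v => z (some (some v)))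
    simp only [Fintype.sum_option] at e1
    rw [Option.forall, Option.forall]
    simp only [Fintype.sum_option, Option.elim_none, Option.elim_some, Int.cast_zero,
      zero_mul, zero_add]
    rw [and_comm, and_comm (a := z (some none) = _), e1]
    apply and_congr_right
    intro h2
    have h3 : ∑ i : Fin (m + 1), (((- c i none : ℤ) : K) * (Fin.cons 1 x : Fin (m + 1) → K) i *
        z none + ((((if i = 0 then 1 else 0 : ℤ) : K)) * (Fin.cons 1 x : Fin (m + 1) → K) i *
        z (some none) + ∑ v, ((- c i (some v) : ℤ) : K) * (Fin.cons 1 x : Fin (m + 1) → K) i *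
          z (some (some v)))) =
        z (some none) - MvPolynomial.aeval x G * z none := by
      rw [hG K x, sum_mul, sum_add_distrib, sum_add_distrib]
      have h4 : ∑ i : Fin (m + 1), ((((if i = 0 then 1 else 0 : ℤ) : K)) *
          (Fin.cons 1 x : Fin (m + 1) → K) i * z (some none)) = z (some none) := by
        rw [sum_eq_single 0]
        · simp
        · intro i _ hi
          simp [hi]
        · intro h
          exact absurd (mem_univ _) h
      rw [h4]
      have h5 : ∀ i : Fin (m + 1), ((c i none : K) * (Fin.cons 1 x : Fin (m + 1) → K) i +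
          ∑ v, (c i (some v) : K) * (Fin.cons 1 x : Fin (m + 1) → K) i *
            MvPolynomial.aeval x (P v)) * z none =
          - (((- c i none : ℤ) : K) * (Fin.cons 1 x : Fin (m + 1) → K) i * z none) -
            ∑ v, ((- c i (some v) : ℤ) : K) * (Fin.cons 1 x : Fin (m + 1) → K) i *
              z (some (some v)) := by
        intro i
        rw [add_mul, sum_mul, sub_eq_add_neg, ← sum_neg_distrib]
        congr 1
        · push_cast
          ring
        · refine sum_congr rfl fun v _ => ?_
          rw [h2 v]
          push_cast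
          ring
      rw [sum_congr rfl (fun i _ => h5 i), sum_sub_distrib, sum_neg_distrib]
      ring
    rw [h3, sub_eq_zero]

/-- the polynomial `f` can be computed -/
private def Gcomp (f : MvPolynomial (Fin m) ℤ) : Prop :=
  ∃ (V : Type) (_ : Fintype V) (P : V → MvPolynomial (Fin m) ℤ), Gad V P ∧ ∃ v, P v = f

private theorem gad_C (n : ℤ) : Gcomp (MvPolynomial.C n : MvPolynomial (Fin m) ℤ) := by
  induction n using Int.induction_on with
  | zero =>
    refine ⟨_, inferInstance, _, gad_ext gad_empty (fun _ _ => 0) (by simp)
      (MvPolynomial.C 0) ?_, none, rfl⟩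
    intro K _ x
    simp
  | succ n ih =>
    obtain ⟨V, _, P, hP, v, hv⟩ := ih
    classical
    refine ⟨_, inferInstance, _, gad_ext hP (fun i l => match l with
      | none => if i = 0 then 1 else 0
      | some u => if i = 0 ∧ u = v then 1 else 0) ?_
      (MvPolynomial.C ((n : ℤ) + 1)) ?_, none, rfl⟩
    · rintro i (_ | u)
      · by_cases h : i = 0 <;> simp [h]
      · by_cases h : i = 0 ∧ u = v <;> simp [h]
    · intro K _ x
      rw [sum_eq_single 0]
      · rw [sum_eq_single v]
        · rw [hv]
          simp
          ring
        · intro u _ hu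
          simp [hu]
        · intro h
          exact absurd (mem_univ _) h
      · intro i _ hi
        simp [hi]
      · intro h
        exact absurd (mem_univ _) h
  | pred n ih =>
    obtain ⟨V, _, P, hP, v, hv⟩ := ih
    classical
    refine ⟨_, inferInstance, _, gad_ext hP (fun i l => match l with
      | none => if i = 0 then -1 else 0
      | some u => if i = 0 ∧ u = v then 1 else 0) ?_
      (MvPolynomial.C (-(n : ℤ) - 1)) ?_, none, rfl⟩
    · rintro i (_ | u)
      · by_cases h : i = 0 <;> simp [h]
      · by_cases h : i = 0 ∧ u = v <;> simp [h]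
    · intro K _ x
      rw [sum_eq_single 0]
      · rw [sum_eq_single v]
        · rw [hv]
          simp
          ring
        · intro u _ hu
          simp [hu]
        · intro h
          exact absurd (mem_univ _) h
      · intro i _ hi
        simp [hi]
      · intro h
        exact absurd (mem_univ _) h

private theorem gad_add {f g : MvPolynomial (Fin m) ℤ} (hf : Gcomp f) (hg : Gcomp g) :
    Gcomp (f + g) := by
  obtain ⟨V, _, P, hP, v, hv⟩ := hf
  obtain ⟨W, _, Q, hQ, w, hw⟩ := hg
  classical
  refine ⟨_, inferInstance, _, gad_ext (gad_union hP hQ) (fun i l => match l with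
    | none => 0
    | some (Sum.inl u) => if i = 0 ∧ u = v then 1 else 0
    | some (Sum.inr u) => if i = 0 ∧ u = w then 1 else 0) ?_
    (f + g) ?_, none, rfl⟩
  · rintro i (_ | (u | u))
    · exact Or.inr (Or.inl rfl)
    · by_cases h : i = 0 ∧ u = v <;> simp [h]
    · by_cases h : i = 0 ∧ u = w <;> simp [h]
  · intro K _ x
    rw [sum_eq_single 0]
    · rw [Fintype.sum_sum_type, sum_eq_single v, sum_eq_single w]
      · simp [hv, hw]
      · intro u _ hu
        simp [hu]
      · intro h
        exact absurd (mem_univ _) h
      · intro u _ hu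
        simp [hu]
      · intro h
        exact absurd (mem_univ _) h
    · intro i _ hi
      simp [hi]
    · intro h
      exact absurd (mem_univ _) h

private theorem gad_X {f : MvPolynomial (Fin m) ℤ} (hf : Gcomp f) (j : Fin m) :
    Gcomp (f * MvPolynomial.X j) := by
  obtain ⟨V, _, P, hP, v, hv⟩ := hf
  classical
  refine ⟨_, inferInstance, _, gad_ext hP (fun i l => match l with
    | none => 0
    | some u => if i = j.succ ∧ u = v then 1 else 0) ?_
    (f * MvPolynomial.X j) ?_, none, rfl⟩
  · rintro i (_ | u)
    · exact Or.inr (Or.inl rfl)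
    · by_cases h : i = j.succ ∧ u = v <;> simp [h]
  · intro K _ x
    rw [sum_eq_single j.succ]
    · rw [sum_eq_single v]
      · rw [hv]
        simp
        ring
      · intro u _ hu
        simp [hu]
      · intro h
        exact absurd (mem_univ _) h
    · intro i _ hi
      simp [hi]
    · intro h
      exact absurd (mem_univ _) h

private theorem gad_all (f : MvPolynomial (Fin m) ℤ) : Gcomp f := by
  induction f using MvPolynomial.induction_on with
  | C n => exact gad_C n
  | add f g hf hg => exact gad_add hf hg
  | mul_X f j hf => exact gad_X hf j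

private theorem gad_finset (F : Finset (MvPolynomial (Fin m) ℤ)) :
    ∃ (V : Type) (_ : Fintype V) (P : V → MvPolynomial (Fin m) ℤ), Gad V P ∧
      ∀ f ∈ F, ∃ v, P v = f := by
  classical
  induction F using Finset.induction_on with
  | empty => exact ⟨Empty, inferInstance, _, gad_empty, by simp⟩
  | insert f F _ ih =>
    obtain ⟨V, _, P, hP, h1⟩ := ih
    obtain ⟨W, _, Q, hQ, w, hw⟩ := gad_all f
    refine ⟨V ⊕ W, inferInstance, _, gad_union hP hQ, ?_⟩
    intro g hg
    rcases mem_insert.1 hg with rfl | hg
    · exact ⟨Sum.inr w, hw⟩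
    · obtain ⟨v, hv⟩ := h1 g hg
      exact ⟨Sum.inl v, hv⟩

/-- the solutions of the complete system -/
private theorem gad_cnt {K : Type} [Field K] [Finite K] {V I : Type} [Fintype V] (g : V → K)
    (o : I → V) : ((∀ i, g (o i) = 0) →
      cnt (fun z : Option V → K => (∀ v, z (some v) = g v * z none) ∧ ∀ i, z (some (o i)) = 0) =
        Nat.card K) ∧
      (¬ (∀ i, g (o i) = 0) →
      cnt (fun z : Option V → K => (∀ v, z (some v) = g v * z none) ∧ ∀ i, z (some (o i)) = 0) =
        1) := by
  constructor
  · intro h
    unfold cnt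
    have e : {z : Option V → K // (∀ v, z (some v) = g v * z none) ∧
        ∀ i, z (some (o i)) = 0} ≃ K :=
      { toFun := fun z => z.1 none
        invFun := fun c => ⟨fun l => l.elim c (fun v => g v * c), fun v => rfl, fun i => by
          show g (o i) * c = 0
          rw [h i, zero_mul]⟩
        left_inv := by
          rintro ⟨z, hz, hz'⟩
          apply Subtype.ext
          funext l
          rcases l with _ | v
          · rfl
          · exact (hz v).symm
        right_inv := fun c => rfl }
    rw [Nat.card_congr e]
  · intro h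
    push Not at h
    obtain ⟨i, hi⟩ := h
    rw [← cnt_eq (0 : Option V → K)]
    apply cnt_congr
    intro z
    constructor
    · rintro ⟨h1, h2⟩
      have h3 := h2 i
      rw [h1 (o i)] at h3
      have h4 : z none = 0 := (mul_eq_zero.1 h3).resolve_left hi
      funext l
      rcases l with _ | v
      · exact h4
      · rw [h1 v, h4, mul_zero]
        rfl
    · rintro rfl
      simp

theorem gadget : SGadget := by
  intro m F
  classical
  obtain ⟨V, _, P, ⟨J, _, T, hT, h1⟩, h2⟩ := gad_finset F
  choose o ho using h2
  set eJ : Fin (Fintype.card (J ⊕ {f // f ∈ F})) ≃ J ⊕ {f // f ∈ F} :=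
    (Fintype.equivFin _).symm with heJ
  set eV : Fin (Fintype.card (Option V)) ≃ Option V := (Fintype.equivFin _).symm with heV
  let T' : Fin (m + 1) → J ⊕ {f // f ∈ F} → Option V → ℤ := fun i j l => match j with
    | Sum.inl j => T i j l
    | Sum.inr f => if i = 0 ∧ l = some (o f.1 f.2) then 1 else 0
  refine ⟨_, _, fun i j l => T' i (eJ j) (eV l), ?_, ?_⟩
  · intro i j l
    show T' i (eJ j) (eV l) = -1 ∨ T' i (eJ j) (eV l) = 0 ∨ T' i (eJ j) (eV l) = 1
    rcases eJ j with j' | f
    · exact hT i j' (eV l)
    · by_cases h : i = 0 ∧ eV l = some (o f.1 f.2)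
      · exact Or.inr (Or.inr (if_pos h))
      · exact Or.inr (Or.inl (if_neg h))
  · intro K _ _ x
    have h3 : cnt (fun z : Fin (Fintype.card (Option V)) → K => ∀ j, ∑ i, ∑ l,
        ((T' i (eJ j) (eV l) : ℤ) : K) * (Fin.cons 1 x : Fin (m + 1) → K) i * z l = 0) =
        cnt (fun z : Option V → K => (∀ v, z (some v) = MvPolynomial.aeval x (P v) * z none) ∧
          ∀ f : {f // f ∈ F}, z (some (o f.1 f.2)) = 0) := by
      rw [← cnt_equiv (Equiv.arrowCongr eV.symm (Equiv.refl K))]
      apply cnt_congr
      intro z
      have h4 : ∀ (i : Fin (m + 1)) (j : Fin (Fintype.card (J ⊕ {f // f ∈ F}))),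
          ∑ l, ((T' i (eJ j) (eV l) : ℤ) : K) * (Fin.cons 1 x : Fin (m + 1) → K) i *
            (Equiv.arrowCongr eV.symm (Equiv.refl K) z) l =
          ∑ l, ((T' i (eJ j) l : ℤ) : K) * (Fin.cons 1 x : Fin (m + 1) → K) i * z l := by
        intro i j
        rw [← Equiv.sum_comp eV]
        rfl
      simp only [h4]
      rw [← eJ.symm.forall_congr_right (q := fun j => ∑ i, ∑ l, ((T' i (eJ j) l : ℤ) : K) *
        (Fin.cons 1 x : Fin (m + 1) → K) i * z l = 0)]
      simp only [Equiv.apply_symm_apply]
      rw [Sum.forall]
      refine and_congr (h1 K x z) (forall_congr' fun f => ?_)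
      have h5 : ∑ i, ∑ l, ((T' i (Sum.inr f) l : ℤ) : K) * (Fin.cons 1 x : Fin (m + 1) → K) i *
          z l = z (some (o f.1 f.2)) := by
        rw [sum_eq_single 0]
        · rw [sum_eq_single (some (o f.1 f.2))]
          · simp [T']
          · intro l _ hl
            simp [T', hl]
          · intro h
            exact absurd (mem_univ _) h
        · intro i _ hi
          apply sum_eq_zero
          intro l _
          simp [T', hi]
        · intro h
          exact absurd (mem_univ _) h
      rw [h5]
    have h6 : (∀ f ∈ F, MvPolynomial.aeval x f = 0) ↔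
        ∀ f : {f // f ∈ F}, MvPolynomial.aeval x (P (o f.1 f.2)) = 0 := by
      constructor
      · intro h f
        rw [ho f.1 f.2]
        exact h f.1 f.2
      · intro h f hf
        have := h ⟨f, hf⟩
        rwa [ho f hf] at this
    have h7 := gad_cnt (K := K) (fun v => MvPolynomial.aeval x (P v))
      (fun f : {f // f ∈ F} => o f.1 f.2)
    constructor
    · intro h
      rw [h3]
      exact h7.1 (h6.1 h)
    · intro h
      rw [h3]
      exact h7.2 (fun h' => h (h6.2 h'))

end Gadget

end Pool.Agent.H90.HW
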